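import Pool.Agent.helper78.EQ.Defs

/-!
# Project EQ (MP_4467b5_nt, density hypothesis): equivalent forms. Module statements.

Module `XX` proves `theorem XX (h1 : AA_stmt) (h2 : BB_stmt) … : XX_stmt` in the file
`Pool/Agent/<seat>/EQ/XX.lean`, namespace `Pool.Agent.EQ`, with `import Pool.Agent.helper78.EQ.Spec`
(plus library files). The hypotheses that may be used are given in the docstring (`uses: …`), nothing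
else of this file may be assumed. Private lemma names: prefix `<seat>_`. No `sorry`, no double quotes.

Library that may be imported:
* `Pool.Agent.helper30.LD.J0`, `J` (namespace `Pool.Agent.helper6.LD`): `zeros_finite`, `order_pos`,
  `zc_mono`, `h30_zc_union_le`, `zc_union_le`, `h30_zc_eq`, `zc_window`, `zc_disc`.
* `Pool.Agent.helper85.LD.G1`: `zeta_growth` (`|ζ s| ≤ C |s|` for `Re s ≥ 1/8`, `|Im s| ≥ 1`),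
  `zeta_lower` (`1/4 ≤ |ζ s|` for `Re s ≥ 2`) and the series for `ζ` to the right of `0` used there.
* `Pool.Agent.helper44.DM.ZG`: `zeta_right` (`e^{-C} ≤ |ζ s| ≤ e^C` for `Re s ≥ 3/2`), `zeta_poly`
  (`|ζ s| ≤ C |Im s|^3` for `Re s ≥ -1`, `|Im s| ≥ 1`).
* `Pool.Agent.helper13.LD.E1`, `E2`, `E3`: `factor`, `h13_exists_log`, `h13_count`, `expansion`.
* `Pool.Agent.helper6.LD.CN`, `Pool.Agent.helper97.LD.F0` (`h97_re_lt`, `h6_box_bounded` …).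
* Mathlib: `Complex.borelCaratheodory`, `Complex.HadamardThreeLines`, `PhragmenLindelof`,
  `AnalyticOnNhd.circleAverage_log_norm` (Jensen), `mellinInv_mellin_eq`,
  `Complex.integral_boundary_rect_eq_zero_of_differentiableOn`, `lintegral_comp_polarCoord_symm`,
  `measurable_of_continuousOn_compl_singleton`.
-/

set_option autoImplicit false

open Complex MeasureTheory Set Metric

namespace Pool.Agent.EQ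

open Pool.Agent.helper6.LD

/-! ## Part 1: complex analysis -/

/-- **THR** (Hadamard three circles). uses: nothing.
Proof. For `‖z - c‖ ≤ r₁` the bound `M₁` is at most the right side since `M₁ ≤ M₃`. Otherwise put
`g w = f (c + e^w)` on the strip `log r₁ ≤ Re w ≤ log r'` with `r₂ < r' < r₃` and use the three
lines theorem of Mathlib (`Complex.HadamardThreeLines.norm_le_interp_of_mem_verticalClosedStrip'`),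
then let `r' → r₃`; finally the exponent `log (r / r₁) / log (r₃ / r₁)` is increasing in `r` and
`M₁ ≤ M₃`. -/
def THR_stmt : Prop := ∀ (f : ℂ → ℂ) (c : ℂ) (r₁ r₂ r₃ M₁ M₃ : ℝ), 0 < r₁ → r₁ ≤ r₂ → r₂ < r₃ →
  0 < M₁ → M₁ ≤ M₃ → DifferentiableOn ℂ f (ball c r₃) → (∀ z ∈ closedBall c r₁, ‖f z‖ ≤ M₁) →
  (∀ z ∈ ball c r₃, ‖f z‖ ≤ M₃) → ∀ z ∈ closedBall c r₂,
    ‖f z‖ ≤ M₁ ^ (1 - Real.log (r₂ / r₁) / Real.log (r₃ / r₁)) *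
      M₃ ^ (Real.log (r₂ / r₁) / Real.log (r₃ / r₁))

/-- **TC** (LONG). uses: THR_stmt. `log ζ` is small in zero free regions.
Proof. Put `t = Im s`, `σ = Re s`.
(a) `σ ≤ 3/2`. `c = 2 + i t`, `R = 2 - σ + δ ≤ 7/4`. `ball c R` lies in `Re > σ - δ`,
`|Im - t| < 2`, so it contains no zero and not the pole (`T₀ ≥ 5`). Let `h` be the holomorphic
logarithm on the ball (`h13_exists_log`: `ζ z = ζ c * exp (h z)`, `h c = 0`) and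
`f = h + log (ζ c)`; `‖f c‖ ≤ C₁` (`zeta_right`), `Re f = log |ζ| ≤ 2 log t` on the ball
(`zeta_growth`, t large). Borel–Carathéodory on `ball c R`: `‖f z‖ ≤ C(δ) log t` for
`‖z - c‖ < r₃ := R - δ/4`. On `ball c (1/2)` (`Re ≥ 3/2`) `Re f ≤ C₁`, so Borel–Carathéodory
gives `‖f z‖ ≤ C₂` on `closedBall c (1/4)`. THR with `r₁ = 1/4`, `r₂ = 2 - σ + δ/2`: the exponent
satisfies `1 - θ = log (r₃/r₂) / log (r₃/r₁) ≥ c(δ) > 0`, so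
`‖f z‖ ≤ C₂ (C(δ) log t)^(1 - c(δ)) ≤ ε' log t` on `closedBall c r₂ ⊇ closedBall s (δ/2)` for
`t ≥ T₀(δ, ε')`. Then `|log |ζ s|| ≤ ε' log t`, and by Cauchy's estimate on the circle of radius
`δ/2` about `s`, `‖ζ' s / ζ s‖ = ‖f' s‖ ≤ (2/δ) ε' log t ≤ t^ε`.
(b) `σ ≥ 3/2`: all three quantities are bounded by constants (`zeta_right`; `ζ'` by Cauchy's estimate
on a circle of radius `1/4`, where `|ζ| ≤ ζ(5/4)`, or by `LSeries`). -/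
def TC_stmt : Prop := ∀ ε δ : ℝ, 0 < ε → 0 < δ → δ ≤ 1 / 4 → ∃ T₀ : ℝ, 5 ≤ T₀ ∧ ∀ s : ℂ,
  1 / 2 ≤ s.re → T₀ ≤ s.im →
  (∀ ρ : ℂ, riemannZeta ρ = 0 → s.re - δ ≤ ρ.re → |ρ.im - s.im| ≤ 3 → False) →
  s.im ^ (-ε) ≤ ‖riemannZeta s‖ ∧ ‖riemannZeta s‖ ≤ s.im ^ ε ∧
    ‖deriv riemannZeta s‖ ≤ s.im ^ ε * ‖riemannZeta s‖

/-- **LBC** (LONG). uses: nothing. A lower bound for `|ζ|` on some circle about `z₀`.
Proof. `c = 2 + i Im z₀`; `factor` for `ζ` with the radii `R = 17/10 < R' = 7/4` gives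
`ζ z = ∏ (z - ρ)^(m ρ) g z`, `g` has no zero in `closedBall c R`, `∑ m ρ ≤ C log (Im z₀)`
(`h13_count`). On `sphere c R'` `∏ ‖z - ρ‖^(m ρ) ≥ (1/20)^(∑ m ρ)`, so by the maximum principle
`log ‖g‖ ≤ C log (Im z₀)` on `closedBall c R'`, and `log ‖g c‖ ≥ - C - 2 ∑ m ρ`. Holomorphic
logarithm of `g` on `ball c R` and Borel–Carathéodory: `log ‖g z‖ ≥ - C' log (Im z₀)` for
`‖z - c‖ ≤ 16/10`, in particular for `‖z - z₀‖ ≤ δ/4 ≤ 1/32`. Finally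
`∫ r in δ/8..δ/4, max(0, - log |r - a|) ≤ C_δ` for every real `a`, so some `r` in `[δ/8, δ/4]` has
`∑ m ρ · (- log |r - ‖ρ - z₀‖|) ≤ C_δ ∑ m ρ`, and `‖z - ρ‖ ≥ |r - ‖ρ - z₀‖|` if `‖z - z₀‖ = r`.
(The factors with `‖z - ρ‖ ≥ 1` only help. All constants are absorbed by `log (Im z₀) ≥ log 5`.) -/
def LBC_stmt : Prop := ∀ δ : ℝ, 0 < δ → δ ≤ 1 / 8 → ∃ C : ℝ, 0 < C ∧ ∀ z₀ : ℂ,
  1 / 2 ≤ z₀.re → z₀.re ≤ 1 → 5 ≤ z₀.im → ∃ r : ℝ, δ / 8 ≤ r ∧ r ≤ δ / 4 ∧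
    ∀ z : ℂ, ‖z - z₀‖ = r → z₀.im ^ (-C) ≤ ‖riemannZeta z‖

/-- **ARG** (argument principle on a circle). uses: nothing.
Proof. By compactness `f` has finitely many zeros in the closed disc, all of finite order, none on
the circle; `f = ∏ (z - ρ)^(m ρ) g` on a neighbourhood of the closed disc with `g` without zeros on
the closed disc (compare `factor` in `Pool.Agent.helper13.LD.E1`; the hypothesis `f c ≠ 0` there can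
be avoided by a small change of centre or by an induction over the zeros), so
`f'/f = ∑ m ρ / (z - ρ) + g'/g` on the circle, `∮ g'/g = 0` (Cauchy) and
`∮ 1/(z - ρ) = 2 π i`. -/
def ARG_stmt : Prop := ∀ (f : ℂ → ℂ) (c : ℂ) (r : ℝ), 0 < r → AnalyticOnNhd ℂ f (closedBall c r) →
  (∀ z ∈ sphere c r, f z ≠ 0) → (∃ z ∈ ball c r, f z = 0) →
    ∃ m : ℕ, 1 ≤ m ∧ (∮ z in C(c, r), deriv f z / f z) = 2 * (Real.pi : ℂ) * I * m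

/-! ## Part 2: Gamma function, contour shift -/

/-- **GAM**. uses: nothing. Decay of the Gamma function.
Proof. For `|φ| < π/2`, `x > 0`: `Γ(x + i y) = r^(x + i y) ∫_0^∞ u^(x + i y - 1) e^(-r u) du` with
`r = e^(i φ)` (Mathlib: `Complex.GammaIntegral…`, `integral_cpow_mul_exp_neg_mul_Ioi` for complex
rate), so `|Γ(x + i y)| ≤ e^(-φ y) (cos φ)^(-x) Γ(x)`. Take `φ = ± 1`. `Γ(x) (cos 1)^(-x)` is
bounded on `[a, 6]`. -/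
def GAM_stmt : Prop := ∀ a : ℝ, 0 < a → ∃ C : ℝ, 0 < C ∧ ∀ x y : ℝ, a ≤ x → x ≤ 6 →
  ‖Complex.Gamma ((x : ℂ) + y * I)‖ ≤ C * Real.exp (-|y|)

/-- **CAH** (Cahen–Mellin). uses: GAM_stmt.
Proof. `Γ` is the Mellin transform of `e^(-x)`; Mellin inversion (`mellinInv_mellin_eq`, `σ = 2`)
gives `e^(-n/N) = (1/(2π)) ∫ Γ(2 + i u) (n/N)^(-(2 + i u)) du` for `n ≥ 1`. Multiply by
`a n n^(-i t)`, sum over `n`; sum and integral may be exchanged since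
`∑ ‖a n‖ n^(-2) · N² ∫ |Γ(2 + i u)| du < ∞` (`integral_tsum` / `hasSum_integral_of_summable_norm`). -/
def CAH_stmt : Prop := ∀ (a : ℕ → ℂ) (N t : ℝ), 0 < N → a 0 = 0 →
  Summable (fun n : ℕ => ‖a n‖ * (n : ℝ) ^ (-(2 : ℝ))) →
  S a N t = (1 / (2 * (Real.pi : ℂ))) * ∫ u : ℝ, Complex.Gamma ((2 : ℂ) + u * I) *
    (N : ℂ) ^ ((2 : ℂ) + u * I) * Ds a ((2 : ℂ) + (t + u) * I)

/-- **SHF** (LONG). uses: GAM_stmt, CAH_stmt. Shift of the line of integration.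
Proof. By CAH, `2π S a N t = ∫ Γ(2 + i u) N^(2 + i u) D(2 + i (t + u)) du`. The part `|u| > U` is at
most `C N² W e^(-U)`, since `‖D s‖ ≤ W` on `Re s = 2`. For the part `|u| ≤ U` apply Cauchy's theorem
on the rectangle `x ≤ Re w ≤ 2`, `|Im w| ≤ U` to `Γ(w) N^w D(w + i t)`
(`Complex.integral_boundary_rect_eq_zero_of_differentiableOn`; `Γ` is differentiable for
`Re w > 0`). The horizontal sides give at most `2 · 2 · C e^(-U) N² V`, the left side at most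
`N^x V ∫ |Γ(x + i u)| du ≤ C N^x V`. -/
def SHF_stmt : Prop := ∀ x₀ : ℝ, 0 < x₀ → x₀ ≤ 1 / 2 → ∃ C : ℝ, 0 < C ∧
  ∀ (a : ℕ → ℂ) (D : ℂ → ℂ) (x t U V W N : ℝ), x₀ ≤ x → x ≤ 2 → 1 ≤ U → 1 ≤ N → 0 ≤ V → a 0 = 0 →
    Summable (fun n : ℕ => ‖a n‖ * (n : ℝ) ^ (-(2 : ℝ))) →
    ∑' n : ℕ, ‖a n‖ * (n : ℝ) ^ (-(2 : ℝ)) ≤ W →
    (∀ s : ℂ, s.re = 2 → D s = Ds a s) →
    (∀ s : ℂ, x ≤ s.re → s.re ≤ 2 → |s.im - t| ≤ U → DifferentiableAt ℂ D s ∧ ‖D s‖ ≤ V) →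
    ‖S a N t‖ ≤ C * (N ^ x * V + N ^ (2 : ℕ) * (V + W) * Real.exp (-U))

/-! ## Part 3: growth of zeta and smooth sums of the zeta function -/

/-- **ZEL**. uses: nothing. Elementary bound.
Proof. For `Re s > 0`, `s ≠ 1` and an integer `M ≥ 1`:
`ζ(s) = ∑_{n ≤ M} n^(-s) + M^(1-s)/(s-1) - s ∫_M^∞ {u} u^(-s-1) du` (compare the series in
`Pool.Agent.helper85.LD.G1`). Take `M = ⌈|Im s|⌉`. With `y = Re s`, `τ = |Im s|`: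
for `1/2 ≤ y ≤ 2` the three terms are at most `(1 + log M) M^(max (1-y) 0)`, `M^(1-y)/τ`,
`|s| M^(-y)/y`, each `≤ C τ^(max (1-y) 0) (1 + log τ)`. For `y ≥ 2`, `|ζ| ≤ 2`. -/
def ZEL_stmt : Prop := ∀ η : ℝ, 0 < η → ∃ C : ℝ, 0 < C ∧ ∀ s : ℂ, 1 / 2 ≤ s.re → 1 ≤ |s.im| →
  ‖riemannZeta s‖ ≤ C * |s.im| ^ (max (1 - s.re) 0 + η)

/-- **CVX** (LONG). uses: ZEL_stmt. Convexity type bound near the imaginary axis.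
Proof. On `Re s = 0`: functional equation `ζ(i t) = χ(i t) ζ(1 - i t)`,
`|χ(i t)| = π⁻¹ |sinh(π t/2)| |Γ(1 - i t)|`, `|Γ(1 - i t)|² = π t / sinh(π t)`
(`Complex.Gamma_mul_Gamma_one_sub`), hence `|ζ(i t)| ≤ C |t|^(1/2 + η)` for `|t| ≥ 1` by ZEL.
On `Re s = 1/2`: `|ζ| ≤ C |t|^(1/2 + η)` by ZEL. In the strip `0 ≤ Re s ≤ 1/2` apply
Phragmén–Lindelöf (`PhragmenLindelof.vertical_strip`) to
`(s - 1) ζ(s) (s + 2)^(-(3/2 + η))`, which grows at most polynomially by `zeta_poly`. For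
`Re s ≥ 1/2` use ZEL. -/
def CVX_stmt : Prop := ∀ η : ℝ, 0 < η → η ≤ 1 / 4 → ∃ C : ℝ, 0 < C ∧ ∀ s : ℂ, 0 ≤ s.re →
  1 ≤ |s.im| → ‖riemannZeta s‖ ≤ C * |s.im| ^ (1 / 2 + η)

/-- **ZPS**. uses: GAM_stmt. Approximation of `ζ` by smooth sums, `s = σ + i t`.
Proof. With `f(u) = e^(-u/N) u^(-s)`:
`∑_{n≥1} f(n) = f(1) + ∫_1^∞ f + ∫_1^∞ {u} f'(u) du` and
`ζ(s) = 1 + 1/(s-1) - s ∫_1^∞ {u} u^(-s-1) du` (see `Pool.Agent.helper85.LD.G1`). The difference is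
`(e^(-1/N) - 1) + (∫_1^∞ f - 1/(s-1)) + ∫_1^∞ {u} ((e^(-u/N) - 1) u^(-s))' du`. The last integral is
at most `∫_1^∞ N⁻¹ e^(-u/N) u^(-1/2) + |s| ∫_1^∞ min(u/N, 1) u^(-3/2) ≤ C |s| N^(-1/2)`. For
`Re s < 1`: `∫_0^∞ f = N^(1-s) Γ(1-s)` and `∫_0^1 f = 1/(1-s) + ∫_0^1 (e^(-u/N) - 1) u^(-s) du`, so
the middle term is `N^(1-s) Γ(1-s)` up to `1/N`; `Γ(1-s) = Γ(2-s)/(1-s)`, `|Γ(1-s)| ≤ C e^(-t)`
(GAM). `Re s = 1` by continuity (or: a limit `Re s → 1-`, both sides are continuous). -/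
def ZPS_stmt : Prop := ∃ C : ℝ, 0 < C ∧ ∀ (s : ℂ) (N : ℝ), 1 / 2 ≤ s.re → s.re ≤ 1 → 1 ≤ s.im →
  1 ≤ N → ‖(∑' n : ℕ, c1 n * ((Real.exp (-((n : ℝ) / N)) : ℝ) : ℂ) * (n : ℂ) ^ (-s)) -
    riemannZeta s‖ ≤ C * (N * Real.exp (-s.im) + ‖s‖ * N ^ (-(1 / 2 : ℝ)))

/-- **SZ0**. uses: nothing. From the sums `∑ n^(-i t)` to the sums `∑ n^(-σ - i t)`.
Proof. `Γ(σ) n^(-σ) e^(-n/N) = ∫_0^∞ e^(-n (y + 1/N)) y^(σ-1) dy`, hence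
`Γ(σ) ∑ c1 n e^(-n/N) n^(-σ - i t) = ∫_0^∞ S c1 (1/(y + 1/N)) t · y^(σ-1) dy`. If `y + 1/N ≤ 1` then
`‖S c1 (1/(y + 1/N)) t‖ ≤ V (y + 1/N)^(-σ) ≤ V min (N^σ, y^(-σ))` by hypothesis: contribution
`≤ V (1/σ + log N)`. If `y + 1/N ≥ 1` then `‖S c1 (1/(y+1/N)) t‖ ≤ ∑_{n≥1} e^(-n (y + 1/N)) ≤
2 e^(-y)`: contribution `≤ 2 Γ(σ) ≤ 4`. And `Γ(σ) ≥ e⁻¹` for `1/2 ≤ σ ≤ 1`. -/
def SZ0_stmt : Prop := ∃ C : ℝ, 0 < C ∧ ∀ σ t N V : ℝ, 1 / 2 ≤ σ → σ ≤ 1 → 1 ≤ N → 1 ≤ V →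
  (∀ x : ℝ, 1 ≤ x → x ≤ N → ‖S c1 x t‖ ≤ x ^ σ * V) →
  ‖∑' n : ℕ, c1 n * ((Real.exp (-((n : ℝ) / N)) : ℝ) : ℂ) * (n : ℂ) ^ (-((σ : ℂ) + t * I))‖
    ≤ C * V * (1 + Real.log N)

/-- **CXS**. uses: SHF_stmt, CVX_stmt. Long zeta sums are small.
Proof. SHF with `a = c1`, `D = ζ`, `x₀ = x = η := ε/8` (wlog `ε ≤ 1`), `U = K log X`,
`V = C (2X)^(1/2 + η)` (CVX; `|Im s| ≤ t + U ≤ 2X`; the pole is not in the region since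
`|s.im - t| ≤ U` gives `s.im ≥ K log X ≥ 1`), `W = ∑ n^(-2)`:
`‖S c1 x t‖ ≤ C (x^η V + x² (V + W) X^(-K))`, `x^η ≤ X^(4η)`, `x² ≤ X^8`, `K = 10`. -/
def CXS_stmt : Prop := ∀ ε : ℝ, 0 < ε → ∃ X₀ K : ℝ, 3 ≤ X₀ ∧ 1 ≤ K ∧ ∀ X t x : ℝ, X₀ ≤ X →
  2 * K * Real.log X ≤ t → t ≤ X → X ≤ x → x ≤ X ^ (4 : ℕ) →
    ‖S c1 x t‖ ≤ x ^ (1 / 2 : ℝ) * X ^ ε

/-- **SZ**. uses: ZPS_stmt, SZ0_stmt, CXS_stmt. If the zeta sums of length `≤ X` are small at `t`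
then `ζ(σ + i t)` is small.
Proof. `N = X^4`. For `1 ≤ x ≤ X` use the hypothesis, for `X ≤ x ≤ X^4` CXS and `x^(1/2) ≤ x^σ`.
SZ0 with `V = X^ε` gives `≤ C X^ε (1 + 4 log X)`, ZPS has error
`C (X^4 e^(-t) + 2 X · X^(-2)) ≤ 1` (`t ≥ 2 K log X`, take `K ≥ 4`). -/
def SZ_stmt : Prop := ∀ ε : ℝ, 0 < ε → ∃ X₀ K : ℝ, 3 ≤ X₀ ∧ 1 ≤ K ∧ ∀ X σ t : ℝ, X₀ ≤ X →
  1 / 2 ≤ σ → σ ≤ 1 → 2 * K * Real.log X ≤ t → t ≤ X →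
  (∀ N : ℝ, 1 ≤ N → N ≤ X → ‖S c1 N t‖ ≤ N ^ σ * X ^ ε) →
    ‖riemannZeta ((σ : ℂ) + t * I)‖ < X ^ (3 * ε)

/-- **FW1**. uses: SHF_stmt. If `ζ` is small to the right of `σ` near `t` then the zeta sums are small
at `t`.
Proof. SHF with `a = c1`, `D = ζ` (`zeta_eq_tsum_one_div_nat_cpow`), `x₀ = 1/2`, `x = σ`,
`U = K log X`, `V = X^ε`, `W = ∑ n^(-2) ≤ 2`, `K = 2 A + ε + 2`:
`‖S c1 N t‖ ≤ C (N^σ X^ε + X^(2A) (X^ε + 2) X^(-K)) < N^σ X^(2ε)` for `X ≥ X₀`. The pole is outside: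
`s.im ≥ t - U ≥ K log X > 0`. -/
def FW1_stmt : Prop := ∀ ε A : ℝ, 0 < ε → 1 ≤ A → ∃ X₀ K : ℝ, 3 ≤ X₀ ∧ 1 ≤ K ∧ ∀ X σ t : ℝ,
  X₀ ≤ X → 1 / 2 ≤ σ → σ ≤ 1 → 2 * K * Real.log X ≤ t → t ≤ X →
  (∀ s : ℂ, σ ≤ s.re → |s.im - t| ≤ K * Real.log X → ‖riemannZeta s‖ ≤ X ^ ε) →
    ∀ N : ℝ, 1 ≤ N → N ≤ X ^ A → ‖S c1 N t‖ < N ^ σ * X ^ (2 * ε)

/-! ## Part 4: Möbius sums and prime sums -/

/-- **FWM**. uses: TC_stmt, SHF_stmt.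
Proof. Wlog `ε ≤ 1`. SHF with `a = cm`, `D s = (ζ s)⁻¹` (`Re s = 2`: Mathlib, L-series of the Möbius
function), `x₀ = 1/2`, `x = σ`, `U = (log X)²`, `W = ∑ n^(-2)`. For `s` with `σ ≤ Re s`,
`|Im s - t| ≤ U`: `Im s ≥ 2 (log X)² ≥ T₀(ε/2, δ)`, `Im s ≤ 2X`, and there is no zero `ρ` with
`Re ρ ≥ Re s - δ`, `|Im ρ - Im s| ≤ 3` (as `U + 3 ≤ 2 U`); TC gives `‖ζ s‖⁻¹ ≤ (2X)^(ε/2) =: V`.
The total is `C (N^σ (2X)^(ε/2) + X^(2A) ((2X)^(ε/2) + W) e^(-(log X)²)) < N^σ X^ε` for `X ≥ X₀`. -/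
def FWM_stmt : Prop := FWD cm

/-- **FWL**. uses: TC_stmt, SHF_stmt.
Proof. The same with `a = cL`, `D s = - ζ' s / ζ s` (Mathlib: L-series of `Λ`), and the third
inequality of TC. -/
def FWL_stmt : Prop := FWD cL

/-- **GFA**. uses: nothing. The truncated Mellin transform `Gf a N t` is entire and bounded.
Proof. For `0 < x ≤ 1`, `‖S a x t‖ ≤ ∑ n e^(-n/x) ≤ 4 e^(-1/x)`, and `x ↦ S a x t` is continuous on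
`(0, ∞)`; so the integral defining `Gf` converges absolutely and locally uniformly in `w`, and is
holomorphic (`hasDerivAt_integral_of_dominated_loc_of_deriv_le` or
`differentiableOn_tsum…`/Morera; a convenient way: `Gf` is `∫` of `w ↦ S a x t * x^(-w-1)`, whose
derivative is `- log x` times it). Bound: the part over `(0, 1]` is at most
`∫_0^1 4 e^(-1/x) x^(-7) dx = 4 ∫_1^∞ e^(-y) y^5 dy ≤ 480`, the part over `[1, N]` at most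
`V ∫_1^N x^(σ - (σ + δ) - 1) dx ≤ V/δ`. -/
def GFA_stmt : Prop := ∃ C : ℝ, 0 < C ∧ ∀ (a : ℕ → ℂ) (N t : ℝ),
  (∀ n : ℕ, ‖a n‖ ≤ Real.sqrt n) → 1 ≤ N → Differentiable ℂ (Gf a N t) ∧
    ∀ (σ δ V : ℝ) (w : ℂ), 1 / 2 ≤ σ → 0 < δ → 0 ≤ V →
      (∀ x : ℝ, 1 ≤ x → x ≤ N → ‖S a x t‖ ≤ x ^ σ * V) → σ + δ ≤ w.re → w.re ≤ 6 →
        ‖Gf a N t w‖ ≤ C + V / δ

/-- **GFM**. uses: nothing.
Proof. `∫_0^∞ e^(-n/x) x^(-w-1) dx = n^(-w) Γ(w)`; summing (absolutely convergent for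
`2 ≤ Re w ≤ 5`, as `∑ √n n^(-2) < ∞`) `∫_0^∞ S a x t x^(-w-1) dx = Γ(w) Ds a (w + i t)`. The
difference is `∫_N^∞ S a x t x^(-w-1) dx`, at most `∫_N^∞ C x^(3/2) x^(-3) dx = 2 C N^(-1/2)`, since
`‖S a x t‖ ≤ ∑ √n e^(-n/x) ≤ C x^(3/2)` for `x ≥ 1`. -/
def GFM_stmt : Prop := ∃ C : ℝ, 0 < C ∧ ∀ (a : ℕ → ℂ) (N t : ℝ) (w : ℂ),
  (∀ n : ℕ, ‖a n‖ ≤ Real.sqrt n) → 1 ≤ N → 2 ≤ w.re → w.re ≤ 5 →
    ‖Gf a N t w - Complex.Gamma w * Ds a (w + t * I)‖ ≤ C * N ^ (-(1 / 2 : ℝ))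

/-- **DTM**. uses: THR_stmt, GFA_stmt, GFM_stmt.
Proof. Suppose `‖S cm x t‖ < x^σ X` for all `1 ≤ x ≤ N := X^A`. Put
`D(w) = ζ(w + i t) Gf cm N t w - Γ(w)`, `c = 3 + i (Im ρ - t)`, `r₁ = 1`, `r₂ = 3 - σ - 2δ`,
`r₃ = 3 - σ - δ`. On `closedBall c 1` (`2 ≤ Re w ≤ 4`) `Γ(w) Ds cm (w + i t) = Γ(w)/ζ(w + i t)`, so
GFM gives `‖D w‖ ≤ C X^(-A/2)`. On `ball c r₃`: `Re w > σ + δ`, `|Im w| ≤ 4 < 10 ≤ t`, so `D` is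
differentiable there, and GFA (`V = X`) with `zeta_growth` gives `‖D w‖ ≤ X³` for `X ≥ X₀(δ)`. At
`w₀ = ρ - i t` (`‖w₀ - c‖ = 3 - Re ρ ≤ r₂`) `D(w₀) = - Γ(w₀)`, and `|Γ(w₀)| ≥ c_Γ > 0`
(`1/2 ≤ Re w₀ ≤ 1`, `|Im w₀| ≤ 1`). THR: `c_Γ ≤ (C X^(-A/2))^(1-θ) (X³)^θ` with
`1 - θ = log(r₃/r₂)/log r₃ ≥ log(1 + δ/r₂) ≥ δ/5`; so `c_Γ ≤ (C X^(-A/2))^(δ/5) X³`, which fails for
`A = 40/δ` and `X` large. -/
def DTM_stmt : Prop := DET cm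

/-- **DTL** (LONG). uses: THR_stmt, GFA_stmt, GFM_stmt, LBC_stmt, ARG_stmt.
Proof. Suppose `‖S cL x t‖ < x^σ X` for all `1 ≤ x ≤ N := X^A`. Put
`D(w) = ζ(w + i t) Gf cL N t w + ζ'(w + i t) Γ(w)`. (`‖cL n‖ = Λ(n) ≤ log n ≤ √n`.) As in DTM,
`‖D‖ ≤ C X^(-A/2)` on `closedBall c 1`, `‖D‖ ≤ X³` on `ball c r₃` (`ζ'` by Cauchy's estimate on a
circle of radius `1/8`), hence `‖D‖ ≤ X^(-B)` on `closedBall c r₂'`, `r₂' = 3 - σ - 3δ/2`, for any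
given `B`, if `A = A(B, δ)` and `X ≥ X₀`. Let `w₀ = ρ - i t`. LBC at `z₀ = ρ` (`Im ρ ≥ 9`) gives
`r` in `[δ/8, δ/4]` with `|ζ(w + i t)| ≥ (2X)^(-C')` on `‖w - w₀‖ = r`, a circle inside
`closedBall c r₂'`. On the circle
`ζ'/ζ(w + i t) = D/(ζ Γ) - Gf/Γ`; `Gf/Γ` is holomorphic in the closed disc (`Γ ≠ 0`,
`1/Γ` is entire), so `∮ ζ'/ζ(w + i t) dw = ∮ D/(ζ Γ)`, of modulus
`≤ 2π r X^(-B) (2X)^(C') / c_Γ < 2π` if `B = C' + 1`. But ARG says that it is `2π i m`, `m ≥ 1`. -/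
def DTL_stmt : Prop := DET cL

/-! ## Part 5: crowded windows -/

/-- **JNA** (Jensen). uses: nothing.
Proof. Jensen's formula (`AnalyticOnNhd.circleAverage_log_norm`): the circle average of `log ‖f‖` is
`∑ᶠ u, D u * log (R * ‖c - u‖⁻¹) + log ‖f c‖ ≥ #Zs · log (R/r) + log ‖f c‖` (all terms are `≥ 0`, the
divisor is `≥ 1` at every zero). It is at most `(2π)⁻¹ ∫_0^{2π} (v + L · 1_E(θ)) dθ`, because
`log ‖f‖ ≤ L` on the circle and `log ‖f‖ < v` off `E` (`Real.log 0 = 0 ≤ v`). -/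
def JNA_stmt : Prop := ∀ (f : ℂ → ℂ) (c : ℂ) (r R v L : ℝ) (Zs : Finset ℂ), 0 < r → r < R → 0 ≤ v →
  0 ≤ L → AnalyticOnNhd ℂ f (closedBall c R) → f c ≠ 0 →
  (∀ z ∈ sphere c R, ‖f z‖ ≤ Real.exp L) → (∀ z ∈ Zs, f z = 0 ∧ z ∈ closedBall c r) →
    (Zs.card : ℝ) * Real.log (R / r) + Real.log ‖f c‖ ≤ v + L / (2 * Real.pi) *
      (volume {θ : ℝ | θ ∈ Ioc 0 (2 * Real.pi) ∧ Real.exp v ≤ ‖f (circleMap c R θ)‖}).toReal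

/-- **JNB** (polar coordinates). uses: nothing.
Proof. `lintegral_comp_polarCoord_symm` (translated by `c`) for the indicator function of
`E ∩ closedBall c Rb`; angles mod `2π`. -/
def JNB_stmt : Prop := ∀ (E : Set ℂ) (c : ℂ) (Ra Rb : ℝ) (α : ENNReal), MeasurableSet E → 0 < Ra →
  Ra < Rb → (∀ R : ℝ, Ra < R → R < Rb →
    α ≤ volume {θ : ℝ | θ ∈ Ioc 0 (2 * Real.pi) ∧ circleMap c R θ ∈ E}) →
    ENNReal.ofReal (Ra * (Rb - Ra)) * α ≤ volume (E ∩ closedBall c Rb)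

/-- **JEN** (LONG). uses: JNA_stmt, JNB_stmt. A window with many zeros forces large values of `ζ` on a
set of positive area.
Proof. `L = log X` (`X ≥ k ≥ K₀` is large), `M₁ = 1/δ + 1`, `y = k + 1/2`, `c₀ = M₁ + i y`,
`R₁ = M₁ - σ + δ/8`. The zeros in `dz σ k` satisfy `‖ρ - c₀‖² ≤ (M₁ - σ)² + 1/4 ≤ R₁²`, because
`M₁ - σ ≥ 1/δ`. For `R₁ + δ/4 ≤ R ≤ R₁ + δ/2` (note `1/δ ≤ R₁ ≤ 5/(4δ)`, `R ≤ M₁`) the closed disc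
`closedBall c₀ R` lies in `Re ≥ σ - 5δ/8 ≥ 1/2`, `Im ≥ k - M₁ > 1`; there `‖ζ‖ ≤ X²` (`zeta_growth`),
and `‖ζ c₀‖ ≥ 1/4` (`zeta_lower`). JNA with `v' = v L`, bound `2 L`:
`ε L log (R/R₁) - log 4 ≤ v L + (2L/(2π)) α(R)`, where `α(R)` is the measure of the angles with
`‖ζ‖ ≥ X^v`; `log (R/R₁) ≥ log (1 + δ²/5) ≥ δ²/10`. With `v = ε δ²/40` and `X` large this gives
`α(R) ≥ π v`. JNB: the set of all `s` in `closedBall c₀ (R₁ + δ/2)`, `Re s ≥ σ - δ`, with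
`‖ζ s‖ ≥ X^v` has area at least `(δ/4) R₁ π v ≥ π v / 4`. If `Re s > 1` and `‖ζ s‖ ≥ X^v` then
`Re s ≤ 1 + 2 X^(-v)` (`‖ζ s‖ ≤ ζ(Re s) ≤ Re s/(Re s - 1)`), a set of area
`≤ 2 X^(-v) · 2 M₁ ≤ π v/8`. So `c = π v/8`, `M = M₁ + 1`. -/
def JEN_stmt : Prop := ∀ δ ε : ℝ, 0 < δ → δ ≤ 1 / 4 → 0 < ε → ∃ v M c K₀ : ℝ, 0 < v ∧ 2 ≤ M ∧
  0 < c ∧ M + 3 ≤ K₀ ∧ ∀ (X σ : ℝ) (k : ℕ), 1 / 2 + δ ≤ σ → σ ≤ 1 → K₀ ≤ k → (k : ℝ) ≤ X →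
    ε * Real.log X ≤ ((dz σ k).ncard : ℝ) →
    ENNReal.ofReal c ≤ volume {s : ℂ | σ - δ ≤ s.re ∧ s.re ≤ 1 ∧ |s.im - k| ≤ M ∧
      X ^ v ≤ ‖riemannZeta s‖}

/-- **NEX**. uses: nothing. Near a zero that is not exposed there is a crowded window.
Proof. Let `ρ = β + i γ`. Use the negation of `Exposed lam M ρ` with `y = γ`, `τ = δ`: as
`log log γ ≤ lam δ log γ` for `γ ≥ γ₀`, the disc `closedBall (M + i γ) (M - β + δ)` contains more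
than `lam δ log γ` zeros. They satisfy `Re ≥ β - δ`, `|Im - γ| ≤ M - β + δ ≤ M`, so they lie in the
windows `k` with `|k - γ| ≤ M + 1`, `k ≥ 0` (`γ₀ ≥ M + 3`), at most `2M + 3` windows. Take
`c = lam δ/(2M + 3)`. (`dz σ k` is finite: `zeros_finite`, `h97_re_lt`.) -/
def NEX_stmt : Prop := ∀ lam M δ : ℝ, 0 < lam → lam ≤ 1 → 100 / lam ^ 2 ≤ M → 0 < δ → δ ≤ 1 / 16 →
  ∃ c γ₀ : ℝ, 0 < c ∧ 1 ≤ γ₀ ∧ ∀ ρ : ℂ, riemannZeta ρ = 0 → 1 / 2 ≤ ρ.re → γ₀ ≤ ρ.im →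
    ¬ Exposed lam M ρ → ∃ k : ℕ, |(k : ℝ) - ρ.im| ≤ M + 3 ∧
      c * Real.log ρ.im ≤ ((dz (ρ.re - δ) k).ncard : ℝ)

/-- **ZTR**. uses: nothing. Trivial bound for the number of zeros.
Proof. Cover by windows of length 1; `zc_window`, and a constant for `0 ≤ Im ≤ 1`. -/
def ZTR_stmt : Prop := ∃ C : ℝ, 0 < C ∧ ∀ T H : ℝ, 0 ≤ T → 1 ≤ H →
  (zc {ρ : ℂ | 1 / 2 ≤ ρ.re ∧ T ≤ ρ.im ∧ ρ.im ≤ T + H} : ℝ) ≤ C * H * Real.log (T + H + 2)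

/-- The exposure theorem (already proved, `LocalDensity`). -/
def EXP_stmt : Prop := ∀ lam M : ℝ, 0 < lam → lam ≤ 1 → 100 / lam ^ 2 ≤ M →
  ∃ B : ℝ, 0 < B ∧ ∀ σ T H : ℝ, 1 / 2 ≤ σ → σ ≤ 1 → 0 ≤ T → 1 ≤ H →
    (zc {ρ : ℂ | σ ≤ ρ.re ∧ T < ρ.im ∧ ρ.im ≤ T + H ∧ riemannZeta ρ = 0 ∧ Exposed lam M ρ} : ℝ)
      ≤ B * H ^ (2 * (1 - σ)) * (T + H) ^ (20 * lam * Real.log (Real.exp 1 / lam))

/-! ## Part 6: transfer and book-keeping -/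

/-- **TRF** (transfer principle). uses: nothing.
Proof. Let `ε > 0`, `X = T + H + 2`, `β = b (1/2)` (the maximum of `b`). By uniform continuity choose
`δ ≤ 1/4` with `|b x - b y| ≤ ε/4` for `|x - y| ≤ δ`, and `η = min 1 (ε/(4 (3 + β)))`.
If `σ < 1/2 + δ`: `F ≤ C X^η H` and `H ≤ H^(b σ) X^(ε/4)` because `1 - b σ ≤ b (1/2) - b σ ≤ ε/4`.
If `σ ≥ 1/2 + δ`: take `G`, `ε'`, `C`, `T'`, `H'` from the third hypothesis and `C'` from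
`Bd θ b G` at `ε'`; `T'^θ ≤ T^θ ≤ H ≤ H'`. For `σ - δ ≤ u ≤ 1`,
`G ε' u T' H' ≤ C' (T' + H' + 2)^ε' H'^(b (σ - δ)) =: B`, where
`T' + H' + 2 ≤ (1 + C) X²`, `H'^(b (σ-δ)) ≤ (max C 1)^β X^(η β) H^(b σ + ε/4)`. Everything together is
`≤ C'' X^(ε/2 + …) H^(b σ) ≤ C'' X^ε H^(b σ)`; `H^(E σ) ≤ H^(b σ)`. -/
def TRF_stmt : Prop := ∀ (θ : ℝ) (b E : ℝ → ℝ) (F : ℝ → ℝ → ℝ → ℝ → ℝ)
    (𝒢 : Set (ℝ → ℝ → ℝ → ℝ → ℝ)), 0 ≤ θ → Adm b → (∀ σ : ℝ, 1 / 2 ≤ σ → σ ≤ 1 → E σ ≤ b σ) →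
  (∀ ε η : ℝ, 0 < ε → 0 < η → ∃ C : ℝ, 0 < C ∧ ∀ σ T H : ℝ, 1 / 2 ≤ σ → σ ≤ 1 → 0 ≤ T → 1 ≤ H →
    F ε σ T H ≤ C * (T + H + 2) ^ η * H) →
  (∀ ε δ η : ℝ, 0 < ε → 0 < δ → δ ≤ 1 / 4 → 0 < η → ∃ G ∈ 𝒢, ∃ ε' C : ℝ, 0 < ε' ∧ ε' ≤ η ∧ 0 < C ∧
    ∀ σ T H : ℝ, 1 / 2 + δ ≤ σ → σ ≤ 1 → 0 ≤ T → 1 ≤ H → ∃ T' H' : ℝ, 0 ≤ T' ∧ T' ≤ T ∧ H ≤ H' ∧
      H' ≤ C * (T + H + 2) ^ η * H ∧
      ∀ B : ℝ, 0 ≤ B → (∀ u : ℝ, σ - δ ≤ u → u ≤ 1 → G ε' u T' H' ≤ B) →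
        F ε σ T H ≤ C * (T + H + 2) ^ η * (H ^ E σ + B)) →
  (∀ G ∈ 𝒢, Bd θ b G) → Bd θ b F

/-- **I1**. uses: TC_stmt, TRF_stmt.
Proof. TRF with `E = 0`, `𝒢 = {Zer}`. Trivial bound: `Lw ≤ #wins T H ≤ H + 2`. Main part: given
`ε, δ, η`; `ε' = η`. `X = T + H + 2`. Windows `k ≤ K₀(ε, δ)`: at most `K₀ + 1`. Let `k > K₀`, and `s`
with `Re s ≥ σ`, `k ≤ Im s ≤ k + 1 ≤ X`, `‖ζ s‖ ≥ X^ε`. If there were no zero `ρ` with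
`Re ρ ≥ Re s - δ`, `|Im ρ - Im s| ≤ 3` then TC (with `ε/2`) would give
`‖ζ s‖ ≤ (Im s)^(ε/2) < X^ε`. So every such window has a zero with `Re ρ ≥ σ - δ` and
`k - 3 ≤ Im ρ ≤ k + 4`; `T' = max (T - 5) 0`, `H' = H + 10`; each zero serves at most 8 windows, so
`Lw ≤ K₀ + 1 + 8 Zer ε' (σ - δ) T' H'` (`order_pos`, `h30_zc_eq`: the number of distinct zeros is at
most `zc`). -/
def I1_stmt : Prop := ∀ (θ : ℝ) (b : ℝ → ℝ), 0 ≤ θ → Adm b → Bd θ b Zer → Bd θ b Lw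

/-- **I2**. uses: nothing.
Proof. `Lv ε σ T H ≤ Lw ε σ T H`: for `t` in the set, `k = ⌊t⌋₊` is one of the windows counted by `Lw`
(`s = σ + i t`), and the set is covered by the corresponding `[k, k+1]`. -/
def I2_stmt : Prop := ∀ (θ : ℝ) (b : ℝ → ℝ), Bd θ b Lw → Bd θ b Lv

/-- **I3** (LONG). uses: JEN_stmt, TRF_stmt.
Proof. TRF with `E = 0`, `𝒢 = {Lv}`, `F = Cr`. Trivial bound `Cr ≤ H + 2`. Main part: `v, M, c, K₀`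
from JEN (for `δ, ε`), `ε' = min η (v/2)`, `X = T + H + 2`, `T' = max (T - M - 2) 0`,
`H' = H + 2 M + 6`; `X' := T' + H' + 2 ≤ X²` if `X ≥ X₁` (if `X < X₁` then `Cr ≤ H + 2 ≤ C`). The
windows `k < K₀` contribute at most `K₀ + 1`. Let `K` be the set of the other crowded windows and
`A_k` the set of JEN. `c #K ≤ ∑ vol A_k ≤ (2M + 2) vol (⋃ A_k)` (every `s` lies in at most `2M + 1`
of the sets), and `⋃ A_k` is contained in `{σ - δ ≤ Re s ≤ 1, T' ≤ Im s ≤ T' + H', X'^ε' ≤ ‖ζ s‖}`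
(as `X'^ε' ≤ X^(2ε') ≤ X^v`), whose area is by Fubini
`∫⁻ u in Icc (σ - δ) 1, volume {t | …} ≤ (1 - σ + δ) B ≤ B`. -/
def I3_stmt : Prop := ∀ (θ : ℝ) (b : ℝ → ℝ), 0 ≤ θ → Adm b → Bd θ b Lv → Bd θ b Cr

/-- **I4** (LONG). uses: NEX_stmt, ZTR_stmt, TRF_stmt, EXP_stmt.
Proof. TRF with `E σ = 2 (1 - σ)`, `𝒢 = {Cr}`, `F = Zer`. Trivial bound: ZTR. Main part: given
`δ, η`: choose `lam ≤ 1` with `20 lam log (e/lam) ≤ η`, `M = 100/lam²`, `δ₁ = min δ (1/16)`,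
`κ = η/2`; `c, γ₀` from NEX (`lam, M, δ₁`), `ε' = min η (c κ/2)`. `X = T + H + 2`,
`T' = max (T - M - 5) 0`, `H' = H + 2M + 12`, `X' = T' + H' + 2 ≤ X²` for `X ≥ X₁` (small `X`: ZTR).
Zeros in `(T, T + H]` with `Re ≥ σ`: exposed ones: `≤ B H^(2(1-σ)) X^η`. Ones with
`Im ≤ max γ₀ (X^κ)`: `≤ C X^κ log X ≤ C X^η` (ZTR). The others: NEX gives a window `k` with
`|k - Im ρ| ≤ M + 3` and `#dz (σ - δ) k ≥ #dz (Re ρ - δ₁) k ≥ c κ log X ≥ ε' log X'`, so `k` is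
counted by `Cr ε' (σ - δ) T' H'`; each window takes at most `C log X` zeros (ZTR). -/
def I4_stmt : Prop := ∀ (θ : ℝ) (b : ℝ → ℝ), 0 ≤ θ → Adm b →
  (∀ σ : ℝ, 1 / 2 ≤ σ → σ ≤ 1 → 2 * (1 - σ) ≤ b σ) → Bd θ b Cr → Bd θ b Zer

/-- **I5**. uses: FW1_stmt, TRF_stmt.
Proof. TRF with `E = 0`, `𝒢 = {Lw}`, `F = Sm c1 A`. Trivial bound: measure `≤ H`. Main part: `X₀, K`
from FW1 with `ε/2`, `A`; `X = T + H + 2 ≥ X₀` (else the measure is `≤ H ≤ X₀`). Bad `t`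
(those in the set of `Sm c1 A ε σ T H`): either `t < 2 K log X` (measure `≤ 2 K log X ≤ C X^η`), or by
FW1 there is `s` with `Re s ≥ σ`, `|Im s - t| ≤ K log X`, `‖ζ s‖ > X^(ε/2)`; then the window
`k = ⌊Im s⌋₊` is counted by `Lw ε' σ T' H'` with `ε' = min η (ε/4)`,
`T' = max (T - K log X - 2) 0`, `H' = H + 2 K log X + 4`, `T' + H' + 2 ≤ X²`. Every window serves a
set of `t` of measure at most `2 K log X + 1`. (`u = σ` in TRF.) -/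
def I5_stmt : Prop := ∀ (θ : ℝ) (b : ℝ → ℝ) (A : ℝ), 0 ≤ θ → Adm b → 1 ≤ A → Bd θ b Lw →
  Bd θ b (Sm c1 A)

/-- **I6**. uses: SZ_stmt, TRF_stmt.
Proof. TRF with `E = 0`, `𝒢 = {Sm c1 1}`, `F = Lv`, `T' = T`, `H' = H`, `u = σ`,
`ε' = min η (ε/4)`: by SZ with `ε/4` (`X^(3ε/4) < X^ε`), a point `t ≥ 2 K log X` with
`‖ζ(σ + i t)‖ ≥ X^ε` has some `1 ≤ N ≤ X` with `‖S c1 N t‖ > N^σ X^(ε/4) ≥ N^σ X^ε'`. -/
def I6_stmt : Prop := ∀ (θ : ℝ) (b : ℝ → ℝ), 0 ≤ θ → Adm b → Bd θ b (Sm c1 1) → Bd θ b Lv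

/-- **I7**. uses: TRF_stmt.
Proof. TRF with `E = 0`, `𝒢 = {Zer}`, `F = Sm a A`. Given `ε, δ, η`: `X₀` from `FWD a`. A bad `t`
with `t ≥ 3 (log X)²` has a zero `ρ` with `Re ρ ≥ σ - δ`, `|Im ρ - t| ≤ 2 (log X)²`. So the bad set
has measure at most `3 (log X)² + 4 (log X)² · zc`, with `T' = max (T - 2 (log X)² - 1) 0`,
`H' = H + 4 (log X)² + 2`. -/
def I7_stmt : Prop := ∀ (a : ℕ → ℂ) (θ : ℝ) (b : ℝ → ℝ) (A : ℝ), FWD a → 0 ≤ θ → Adm b → 1 ≤ A →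
  Bd θ b Zer → Bd θ b (Sm a A)

/-- **I8**. uses: ZTR_stmt, TRF_stmt.
Proof. TRF with `E = 0`, `𝒢 = {G | ∃ A ≥ 1, G = Sm a A}`, `F = Zer`. Trivial bound ZTR. Given
`δ, η`: `A, X₀` from `DET a` at `δ/2`, `G = Sm a A`, `ε' = min η (1/2)`, `X = T + H + 2`,
`T' = max (T - 1) 0`, `H' = H + 2`, `X' = T' + H' + 2`, `X ≤ X' ≤ X + 2 ≤ X²`. Zeros with `Im < 11`:
a constant (ZTR). Let `ρ` be a zero with `Re ρ ≥ σ`, `T < Im ρ ≤ T + H`, `Im ρ ≥ 11`,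
`k = ⌊Im ρ⌋₊`. For all `t` in `[k, k + 1]`: `10 ≤ t ≤ X`, `|Im ρ - t| ≤ 1`, so by `DET a` with
`σ - δ` there is `1 ≤ N ≤ X^A ≤ X'^A` with `‖S a N t‖ ≥ N^(σ-δ) X ≥ N^(σ-δ) X'^ε'`. Hence the whole
window lies in the set of `Sm a A ε' (σ - δ) T' H'`, and the number of these windows is at most its
measure. Each window contains at most `C log X` zeros (ZTR with `H = 1`). -/
def I8_stmt : Prop := ∀ (a : ℕ → ℂ) (θ : ℝ) (b : ℝ → ℝ), DET a → 0 ≤ θ → Adm b →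
  (∀ A : ℝ, 1 ≤ A → Bd θ b (Sm a A)) → Bd θ b Zer

/-- **DHF**. uses: nothing.
Proof. `→`: `zc` over `(T, T + H]` is at most `zc` over `(0, T + H]`, `T + H ≤ 2H` as `T ≤ H`; for
`T + H < max T₀ 1` it is at most a constant. `←`: `T := 0`, `H := T` (for `T ≥ 1`),
`(T + 2)^ε ≤ 3^ε T^ε`. -/
def DHF_stmt : Prop := DH ↔ Bd 1 (fun σ => 2 * (1 - σ)) Zer

end Pool.Agent.EQ
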