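import Pool.Agent.helper6.LD.Defs

/-!
# Project EQ (MP_4467b5_nt): equivalent forms of the density hypothesis, definitions

`Pool.Agent.helper6.LD.zc S` is the number of zeros of the zeta function in `S`, with multiplicity.
-/

set_option autoImplicit false

open Complex MeasureTheory Set Metric

namespace Pool.Agent.EQ

open Pool.Agent.helper6.LD

/-- The density bound with exponent `b` for the quantity `F`, which depends on a level `ε`, an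
abscissa `σ` and an interval `[T, T + H]` : for every `ε > 0` there is `C > 0` with
`F ε σ T H ≤ C (T + H + 2)^ε H^(b σ)` for all `1/2 ≤ σ ≤ 1`, `T ≥ 0`, `H ≥ 1` with `T^θ ≤ H`. -/
def Bd (θ : ℝ) (b : ℝ → ℝ) (F : ℝ → ℝ → ℝ → ℝ → ℝ) : Prop :=
  ∀ ε : ℝ, 0 < ε → ∃ C : ℝ, 0 < C ∧ ∀ σ T H : ℝ, 1 / 2 ≤ σ → σ ≤ 1 → 0 ≤ T → 1 ≤ H → T ^ θ ≤ H →
    F ε σ T H ≤ C * (T + H + 2) ^ ε * H ^ b σ

/-- The number of zeros of the zeta function, with multiplicity, with real part at least `σ` and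
imaginary part in `(T, T + H]`. -/
noncomputable def Zer (_ε σ T H : ℝ) : ℝ := (zc {ρ : ℂ | σ ≤ ρ.re ∧ T < ρ.im ∧ ρ.im ≤ T + H} : ℝ)

/-- The integers `k` whose window `[k, k + 1]` meets `[T, T + H]`. -/
def wins (T H : ℝ) : Set ℕ := {k : ℕ | T ≤ (k : ℝ) + 1 ∧ (k : ℝ) ≤ T + H}

/-- The number of windows `[k, k + 1]` that meet `[T, T + H]` and in which `|ζ|` takes a value at
least `(T + H + 2)^ε` somewhere to the right of `σ`. -/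
noncomputable def Lw (ε σ T H : ℝ) : ℝ :=
  ({k : ℕ | k ∈ wins T H ∧ ∃ s : ℂ, σ ≤ s.re ∧ (k : ℝ) ≤ s.im ∧ s.im ≤ (k : ℝ) + 1 ∧
    (T + H + 2) ^ ε ≤ ‖riemannZeta s‖}.ncard : ℝ)

/-- The measure of the set of all `t` in `[T, T + H]` with `|ζ(σ + i t)| ≥ (T + H + 2)^ε`. -/
noncomputable def Lv (ε σ T H : ℝ) : ℝ :=
  (volume {t : ℝ | T ≤ t ∧ t ≤ T + H ∧
    (T + H + 2) ^ ε ≤ ‖riemannZeta ((σ : ℂ) + t * I)‖}).toReal

/-- The zeros (as points, without multiplicity) in the window `[k, k + 1]` with real part at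
least `σ`. -/
def dz (σ : ℝ) (k : ℕ) : Set ℂ :=
  {ρ : ℂ | riemannZeta ρ = 0 ∧ σ ≤ ρ.re ∧ (k : ℝ) ≤ ρ.im ∧ ρ.im ≤ (k : ℝ) + 1}

/-- The number of windows `[k, k + 1]` that meet `[T, T + H]` and contain at least
`ε log (T + H + 2)` distinct zeros with real part at least `σ`. -/
noncomputable def Cr (ε σ T H : ℝ) : ℝ :=
  ({k : ℕ | k ∈ wins T H ∧ ε * Real.log (T + H + 2) ≤ ((dz σ k).ncard : ℝ)}.ncard : ℝ)

/-- The smooth sum `∑ a n e^(-n/N) n^(-i t)` of length `N`. -/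
noncomputable def S (a : ℕ → ℂ) (N t : ℝ) : ℂ :=
  ∑' n : ℕ, a n * ((Real.exp (-((n : ℝ) / N)) : ℝ) : ℂ) * (n : ℂ) ^ (-((t : ℂ) * I))

/-- The measure of the set of all `t` in `[T, T + H]` for which some smooth sum of length
`1 ≤ N ≤ (T + H + 2)^A` with coefficients `a` is at least `N^σ (T + H + 2)^ε`. -/
noncomputable def Sm (a : ℕ → ℂ) (A ε σ T H : ℝ) : ℝ :=
  (volume {t : ℝ | T ≤ t ∧ t ≤ T + H ∧ ∃ N : ℝ, 1 ≤ N ∧ N ≤ (T + H + 2) ^ A ∧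
    N ^ σ * (T + H + 2) ^ ε ≤ ‖S a N t‖}).toReal

/-- coefficients of the zeta function -/
noncomputable def c1 (n : ℕ) : ℂ := if n = 0 then 0 else 1

/-- the Möbius function -/
noncomputable def cm (n : ℕ) : ℂ := ((ArithmeticFunction.moebius n : ℤ) : ℂ)

/-- the von Mangoldt function -/
noncomputable def cL (n : ℕ) : ℂ := ((ArithmeticFunction.vonMangoldt n : ℝ) : ℂ)

/-- the Dirichlet series with coefficients `a` -/
noncomputable def Ds (a : ℕ → ℂ) (s : ℂ) : ℂ := ∑' n : ℕ, a n * (n : ℂ) ^ (-s)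

/-- the truncated Mellin transform of the smooth sums -/
noncomputable def Gf (a : ℕ → ℂ) (N t : ℝ) (w : ℂ) : ℂ :=
  ∫ x in Ioc (0 : ℝ) N, S a x t * (x : ℂ) ^ (-w - 1)

/-- conditions on the exponent `b` used in most modules -/
structure Adm (b : ℝ → ℝ) : Prop where
  cont : ContinuousOn b (Icc (1 / 2) 1)
  anti : AntitoneOn b (Icc (1 / 2) 1)
  half : 1 ≤ b (1 / 2)
  one : 0 ≤ b 1

/-- zero free region gives bounds for the smooth sums with coefficients `a` -/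
def FWD (a : ℕ → ℂ) : Prop := ∀ δ ε A : ℝ, 0 < δ → δ ≤ 1 / 4 → 0 < ε → 1 ≤ A → ∃ X₀ : ℝ, 3 ≤ X₀ ∧
  ∀ X σ t : ℝ, X₀ ≤ X → 1 / 2 + δ ≤ σ → σ ≤ 1 → 3 * Real.log X ^ 2 ≤ t → t ≤ X →
    (∀ ρ : ℂ, riemannZeta ρ = 0 → σ - δ ≤ ρ.re → |ρ.im - t| ≤ 2 * Real.log X ^ 2 → False) →
    ∀ N : ℝ, 1 ≤ N → N ≤ X ^ A → ‖S a N t‖ < N ^ σ * X ^ ε

/-- a zero forces a large smooth sum with coefficients `a` -/
def DET (a : ℕ → ℂ) : Prop := ∀ δ : ℝ, 0 < δ → δ ≤ 1 / 8 → ∃ A X₀ : ℝ, 1 ≤ A ∧ 3 ≤ X₀ ∧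
  ∀ (X σ t : ℝ) (ρ : ℂ), X₀ ≤ X → 1 / 2 ≤ σ → 10 ≤ t → t ≤ X → riemannZeta ρ = 0 →
    σ + 2 * δ ≤ ρ.re → |ρ.im - t| ≤ 1 → ∃ N : ℝ, 1 ≤ N ∧ N ≤ X ^ A ∧ N ^ σ * X ≤ ‖S a N t‖

/-- the density hypothesis in its usual form -/
def DH : Prop := ∀ ε : ℝ, 0 < ε → ∃ C T₀ : ℝ, 0 < C ∧ ∀ T σ : ℝ, T₀ ≤ T → 1 / 2 ≤ σ → σ ≤ 1 →
  (zc {ρ : ℂ | σ ≤ ρ.re ∧ 0 < ρ.im ∧ ρ.im ≤ T} : ℝ) ≤ C * T ^ (2 * (1 - σ) + ε)

end Pool.Agent.EQ
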